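import Pool.Agent.Helper48.KM.Stmts

/-! The family of curves in degree nine. -/

set_option autoImplicit false

namespace Pool.Agent.Helper48.KM

open LaurentPolynomial in
/-- the curve -/
noncomputable def niC (a β m k : ℂ) : Fin 3 → LaurentPolynomial ℂ :=
  ![C a * (T 1 + T (-2)), C β * (C a * (T 1 + T (-2))) + T 1,
    C m * (C β * (C a * (T 1 + T (-2))) + T 1) + C k * (C a * (T 1 + T (-2)))]

theorem ni_val0 (a β m k : ℂ) (s : ℂˣ) :
    val (niC a β m k) s 0 = a * ((s : ℂ) + ((s : ℂ)⁻¹) ^ 2) := by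
  simp only [val, niC, Matrix.cons_val_zero, map_mul, map_add, LaurentPolynomial.eval₂_C,
    RingHom.id_apply]
  rw [LaurentPolynomial.eval₂_T, LaurentPolynomial.eval₂_T]
  simp [zpow_neg]

theorem ni_T1 (s : ℂˣ) :
    LaurentPolynomial.eval₂ (RingHom.id ℂ) s (LaurentPolynomial.T 1) = (s : ℂ) := by
  rw [LaurentPolynomial.eval₂_T, zpow_one]

theorem ni_val1 (a β m k : ℂ) (s : ℂˣ) :
    val (niC a β m k) s 1 = β * val (niC a β m k) s 0 + (s : ℂ) := by
  simp only [val, niC, Matrix.cons_val_zero, Matrix.cons_val_one, map_mul, map_add,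
    LaurentPolynomial.eval₂_C, RingHom.id_apply, ni_T1]

theorem ni_val2 (a β m k : ℂ) (s : ℂˣ) :
    val (niC a β m k) s 2 = m * val (niC a β m k) s 1 + k * val (niC a β m k) s 0 := by
  have h2 : niC a β m k 2 = LaurentPolynomial.C m * niC a β m k 1 +
      LaurentPolynomial.C k * niC a β m k 0 := rfl
  rw [val, val, val, h2, map_add, map_mul, map_mul, LaurentPolynomial.eval₂_C,
    LaurentPolynomial.eval₂_C, RingHom.id_apply, RingHom.id_apply]

theorem ni_good (A C β : ℂ) (h1 : ph A C β ≠ 0)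
    (h2 : (3 * β ^ 2 + A) ^ 2 ≠ 12 * β * ph A C β) :
    ∃ f : Fin 3 → LaurentPolynomial ℂ, IsGm (surfNine A C) f ∧ Lim 1 f β := by
  obtain ⟨μ, hμ⟩ := IsAlgClosed.exists_pow_nat_eq (ph A C β) (n := 2) (by norm_num)
  have hμ0 : μ ≠ 0 := by
    rintro rfl
    apply h1
    rw [← hμ]
    ring
  set m : ℂ := (3 * β ^ 2 + A) / (2 * μ) with hm
  set k : ℂ := μ - m * β with hk
  set γ : ℂ := m ^ 2 - 2 * β with hγ
  have hmμ : m * (2 * μ) = 3 * β ^ 2 + A := by
    rw [hm]
    field_simp
  have hγβ : γ - β ≠ 0 := by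
    intro h
    have hm2 : m ^ 2 = 3 * β := by
      rw [hγ] at h
      linear_combination h
    apply h2
    rw [← hmμ, ← hμ]
    linear_combination 4 * μ ^ 2 * hm2
  set a : ℂ := (γ - β)⁻¹ with ha
  have haγ : a * (γ - β) = 1 := by
    rw [ha]
    exact inv_mul_cancel₀ hγβ
  have ha0 : a ≠ 0 := inv_ne_zero hγβ
  have hphβ : ph A C β = μ ^ 2 := hμ.symm
  have hC : C = μ ^ 2 - β ^ 3 - A * β := by
    rw [← hphβ, ph]
    ring
  have hA : A = m * (2 * μ) - 3 * β ^ 2 := by
    rw [hmμ]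
    ring
  refine ⟨niC a β m k, ⟨fun s => ?_, ?_⟩, 2, Polynomial.C a * (Polynomial.X ^ 3 + 1),
    Polynomial.C β * (Polynomial.C a * (Polynomial.X ^ 3 + 1)) + Polynomial.X ^ 3, by norm_num,
    ?_, ?_, fun s => ⟨?_, ?_⟩⟩
  · have hs : (s : ℂ) ≠ 0 := s.ne_zero
    rw [surfNine, Set.mem_ofPred_eq, ni_val2, ni_val1]
    set z := val (niC a β m k) s 0 with hz
    have hz0 : (γ - β) * z = (s : ℂ) + ((s : ℂ)⁻¹) ^ 2 := by
      rw [hz, ni_val0]
      linear_combination ((s : ℂ) + ((s : ℂ)⁻¹) ^ 2) * haγ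
    have key : z * (m * (β * z + s) + k * z) ^ 2 - (β * z + s) ^ 3 - A * (β * z + s) * z ^ 2
        - C * z ^ 3 = -((s : ℂ) ^ 2 * (s - (γ - β) * z)) := by
      rw [hC, hA, hk, hγ]
      ring
    rw [hz0] at key
    have h3 : (s : ℂ) ^ 2 * ((s : ℂ) - ((s : ℂ) + ((s : ℂ)⁻¹) ^ 2)) = -1 := by
      field_simp
      ring
    rw [h3] at key
    linear_combination key
  · refine ⟨1, Units.mk0 2 (by norm_num), fun h => ?_⟩
    have e0 := congrFun h 0
    have e1 := congrFun h 1
    rw [ni_val1, ni_val1, e0] at e1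
    simp at e1
  · simp [ha0]
  · simp
  · have hs : (s : ℂ) ≠ 0 := s.ne_zero
    rw [ni_val0]
    simp only [Polynomial.eval_mul, Polynomial.eval_C, Polynomial.eval_add, Polynomial.eval_pow,
      Polynomial.eval_X, Polynomial.eval_one]
    field_simp
  · have hs : (s : ℂ) ≠ 0 := s.ne_zero
    rw [ni_val1, ni_val0]
    simp only [Polynomial.eval_mul, Polynomial.eval_C, Polynomial.eval_add, Polynomial.eval_pow,
      Polynomial.eval_X, Polynomial.eval_one]
    field_simp
    ring

theorem st_NI : ST_NI := by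
  intro A C _ hcount
  set p1 : Polynomial ℂ := Polynomial.X ^ 3 + Polynomial.C A * Polynomial.X + Polynomial.C C
    with hp1
  set p2 : Polynomial ℂ := (3 * Polynomial.X ^ 2 + Polynomial.C A) ^ 2 -
    12 * Polynomial.X * p1 with hp2
  have hp1e : ∀ x, p1.eval x = ph A C x := by
    intro x
    simp [hp1, ph]
  have hp10 : p1 ≠ 0 := by
    intro h
    have h3 : p1.coeff 3 = 1 := by
      rw [hp1]
      simp
    rw [h] at h3
    simp at h3
  have hp2e : ∀ x, p2.eval x = (3 * x ^ 2 + A) ^ 2 - 12 * x * ph A C x := by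
    intro x
    rw [← hp1e, hp2]
    simp
  have hp20 : p2 ≠ 0 := by
    intro h
    have hall : ∀ x, (3 * x ^ 2 + A) ^ 2 - 12 * x * ph A C x = 0 := by
      intro x
      rw [← hp2e, h, Polynomial.eval_zero]
    have h0 := hall 0
    have h1 := hall 1
    have h2 := hall (-1)
    have h3 := hall 2
    simp only [ph] at h0 h1 h2 h3
    have hA0 : A = 0 := by
      have : A ^ 2 = 0 := by linear_combination h0
      exact pow_eq_zero_iff (by norm_num) |>.1 this
    subst hA0
    have h4 : (-6 : ℂ) = 0 := by linear_combination h1 + h2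
    norm_num at h4
  have hcof : {x : ℂ | p1.eval x = 0 ∨ p2.eval x = 0}.Finite := by
    have e : {x : ℂ | p1.eval x = 0 ∨ p2.eval x = 0} ⊆
        (p1.rootSet ℂ) ∪ (p2.rootSet ℂ) := by
      rintro x (hx | hx)
      · left
        rw [Polynomial.mem_rootSet]
        exact ⟨hp10, by simpa using hx⟩
      · right
        rw [Polynomial.mem_rootSet]
        exact ⟨hp20, by simpa using hx⟩
    exact ((p1.rootSet_finite ℂ).union (p2.rootSet_finite ℂ)).subset e
  have huniv : (Set.univ : Set ℂ).Countable := by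
    refine (hcount.union hcof.countable).mono ?_
    intro x _
    by_cases hx : p1.eval x = 0 ∨ p2.eval x = 0
    · exact Or.inr hx
    · left
      rw [not_or, hp1e, hp2e] at hx
      exact ni_good A C x hx.1 (fun h => hx.2 (by rw [h, sub_self]))
  exact not_countable_complex huniv

end Pool.Agent.Helper48.KM
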